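import Pool.Agent.Lead.Br2

set_option autoImplicit false

namespace Pool.Agent.Results.MP_3c3b39_pr.Q1
open Pool.Agent.Lead.Br

def h0 (z : Fin 3 → Bool) : Bool := !z 0 && !(z 1 && z 2)
def h1 (z : Fin 3 → Bool) : Bool := !(z 0 && z 1 && !z 2)
def h2 (z : Fin 3 → Bool) : Bool := !(z 0 && z 1 && z 2)

def HA (a : ℕ) : Set (Fin 3 → Bool) :=
  if a = 0 then {z | h0 z = true} else if a = 1 then {z | h1 z = true}
  else if a = 2 then {z | h2 z = true} else Set.univ

lemma HA0 : HA 0 = {z | h0 z = true} := by simp [HA]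
lemma HA1 : HA 1 = {z | h1 z = true} := by simp [HA]
lemma HA2 : HA 2 = {z | h2 z = true} := by simp [HA]
lemma HA3 (a : ℕ) (h : 3 ≤ a) : HA a = Set.univ := by
  unfold HA
  rw [if_neg (by omega), if_neg (by omega), if_neg (by omega)]

lemma y1 : (fun _ => false) ∈ box (box (HA 0) (HA 1)) (HA 2) := by
  simp only [box_iff, HA0, HA1, HA2, Set.mem_ofPred_eq]
  decide +kernel

lemma y2 : (fun _ => false) ∈ box (HA 0) (box (HA 1) (HA 2)) := by
  simp only [box_iff, HA0, HA1, HA2, Set.mem_ofPred_eq]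
  decide +kernel

lemma n3 : ∀ K0 K1 K2 : Fin 3 → Bool,
    (∀ i, ¬ (K0 i = true ∧ K1 i = true) ∧ ¬ (K0 i = true ∧ K2 i = true) ∧
      ¬ (K1 i = true ∧ K2 i = true)) →
    (∀ y : Fin 3 → Bool, (∀ i, K0 i = true → y i = false) → h0 y = true) →
    (∀ y : Fin 3 → Bool, (∀ i, K1 i = true → y i = false) → h1 y = true) →
    ¬ (∀ y : Fin 3 → Bool, (∀ i, K2 i = true → y i = false) → h2 y = true) := by
  decide +kernel

lemma mem_all (T : BT) : 3 ≤ T.size → (fun _ => false) ∈ ev HA T 0 := by
  induction T with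
  | leaf => intro h; simp [BT.size] at h
  | node l r ihl _ =>
    intro h
    have p1 := size_pos l
    have p2 := size_pos r
    simp only [BT.size] at h
    by_cases h3 : 3 ≤ l.size
    · exact box_mono (fun _ h => h) (ev_univ _ r (0 + l.size)
        (fun a a1 _ => HA3 a (by omega))) (box_univ (ihl h3))
    · by_cases h2 : l.size = 2
      · exact box_mono (ev_two HA l 0 0 1 (by omega) (fun a _ a2 a3 a4 => by omega))
          (ev_one HA r (0 + l.size) 2 (fun a a1 _ a3 => HA3 a (by omega))) y1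
      · exact box_mono (ev_one HA l 0 0 (fun a _ a2 a3 => by omega))
          (ev_two HA r (0 + l.size) 1 2 (by omega) (fun a a1 _ a3 a4 => HA3 a (by omega))) y2

/-- For every `r ≥ 3` the simultaneous product can be strictly smaller than the intersection of
all bracketed products. -/
theorem result : ∀ r : ℕ, 3 ≤ r →
    ∃ (S : Type) (_ : Nonempty S) (d : ℕ) (_ : 1 ≤ d) (A : ℕ → Set (Fin d → S)),
      simul r A ⊂ ⋂ T ∈ {T : BT | T.size = r}, ev A T 0 := by
  classical
  intro r hr
  refine ⟨Bool, ⟨true⟩, 3, by omega, HA, ?_, ?_⟩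
  · rintro x ⟨K, hd, hK⟩
    simp only [Set.mem_iInter, Set.mem_ofPred_eq]
    intro T hT
    refine sim_cyl HA T 0 x (fun a => if h : a < r then K ⟨a, h⟩ else ∅) ?_ ?_ x (by simp)
    · intro a b _ a2 _ b2 hab
      rw [dif_pos (by omega), dif_pos (by omega)]
      exact hd _ _ (fun e => hab (congrArg Fin.val e))
    · intro a _ a2 y hy
      have ha : a < r := by omega
      rw [dif_pos ha] at hy
      exact hK ⟨a, ha⟩ y hy
  · intro hsub
    have hx : (fun _ => false) ∈ ⋂ T ∈ {T : BT | T.size = r}, ev HA T 0 := by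
      simp only [Set.mem_iInter, Set.mem_ofPred_eq]
      intro T hT
      exact mem_all T (by omega)
    obtain ⟨K, hd, hK⟩ := hsub hx
    have d01 := Set.disjoint_left.1 (hd ⟨0, by omega⟩ ⟨1, by omega⟩ (by simp))
    have d02 := Set.disjoint_left.1 (hd ⟨0, by omega⟩ ⟨2, by omega⟩ (by simp))
    have d12 := Set.disjoint_left.1 (hd ⟨1, by omega⟩ ⟨2, by omega⟩ (by simp))
    refine n3 (fun i => decide (i ∈ K ⟨0, by omega⟩)) (fun i => decide (i ∈ K ⟨1, by omega⟩))
      (fun i => decide (i ∈ K ⟨2, by omega⟩)) ?_ ?_ ?_ ?_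
    · intro i
      simp only [decide_eq_true_eq]
      exact ⟨fun h => d01 h.1 h.2, fun h => d02 h.1 h.2, fun h => d12 h.1 h.2⟩
    · intro y hy
      have := hK ⟨0, by omega⟩ y (fun i hi => hy i (by simpa using hi))
      rwa [HA0] at this
    · intro y hy
      have := hK ⟨1, by omega⟩ y (fun i hi => hy i (by simpa using hi))
      rwa [HA1] at this
    · intro y hy
      have := hK ⟨2, by omega⟩ y (fun i hi => hy i (by simpa using hi))
      rwa [HA2] at this

end Pool.Agent.Results.MP_3c3b39_pr.Q1
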